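import Mathlib
import Pool.Agent.Helper17.KW.CoreG
import Pool.Agent.Helper88.MR.St.R6
import Pool.Agent.Helper88.MR.St.R8
import Pool.Agent.Helper88.MR.St.R9

/-!
# Diffusive rigidity for the averages under `x ↦ 2 x` alone: measures on `[0, 1)`

The mirror of `Pool.Agent.Helper17.KW.core_tail_gen`: only averages under `x ↦ 2 x` are used.
-/

set_option autoImplicit false

open MeasureTheory Finset Filter

namespace Pool.Agent.Helper88.MR

open Pool.Agent.Helper61.FR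
open Pool.Agent.Helper17.KW (wing wing_mono wing_le le_wing self_le_wing
  wing_le_two_pow)

lemma wing_le_three_pow {γ : ℝ} (h1 : 1 ≤ γ) (h2 : γ ≤ 2) {q : ℕ} (hq : 2 ≤ q) :
    wing γ q ≤ 3 ^ q := by
  refine (wing_le_two_pow h1 h2 q).trans ?_
  obtain ⟨k, rfl⟩ := Nat.exists_eq_add_of_le hq
  have e1 : 2 ^ (2 + k + 1) = 8 * 2 ^ k := by ring
  have e2 : 3 ^ (2 + k) = 9 * 3 ^ k := by ring
  have h3 : 2 ^ k ≤ 3 ^ k := Nat.pow_le_pow_left (by norm_num) k
  rw [e1, e2]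
  omega

/-- **Diffusive rigidity for `×2`-averages.**  Let `μ` be a `×2, ×3`-invariant probability measure
without atoms.  If for each character the averages under `x ↦ 2 x` over `3 ^ q` steps deviate from
their mean with probabilities `b q` such that `∑ (3 ^ q / q ^ γ) b q < ∞`, `γ < 3 / 2`, then `μ` is
Lebesgue measure. -/
theorem core_tail_gen3 {γ : ℝ} (hγ1 : 1 ≤ γ) (hγ2 : γ < 3 / 2) {μ : Measure ℝ} (h : Inv23 μ)
    (h0 : ∀ x, μ {x} = 0)
    (hW : ∀ m : ℕ, 1 ≤ m → ∀ η : ℝ, 0 < η →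
      Summable fun q : ℕ => (3 ^ q / (q : ℝ) ^ γ) * μ.real (dev μ (3 ^ q) 1 m η))
    (m : ℕ) (hm : 1 ≤ m) : ∫ y, e (m * y) ∂μ = 0 := by
  by_contra hφ
  have := h.prob
  have h32 : ∀ q : ℕ, (2 : ℝ) ^ q ≤ 3 ^ q := fun q =>
    pow_le_pow_left₀ (by norm_num) (by norm_num) q
  -- convergence in measure
  have hdev : ∀ m : ℕ, 1 ≤ m → ∀ η : ℝ, 0 < η →
      Tendsto (fun q : ℕ => μ.real (dev μ (3 ^ q) 1 m η)) atTop (nhds 0) := by
    intro m hm η hη
    have h1 := ((hW m hm η hη).mul_left 2).tendsto_atTop_zero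
    refine squeeze_zero' (Eventually.of_forall fun q => measureReal_nonneg) ?_ h1
    filter_upwards [eventually_ge_atTop 1] with q hq
    have h3 : (1 : ℝ) ≤ 2 * (3 ^ q / (q : ℝ) ^ γ) := by
      have h8 : (0 : ℝ) < (q : ℝ) ^ γ :=
        Real.rpow_pos_of_pos (by exact_mod_cast hq) _
      rw [mul_div_assoc', le_div_iff₀ h8, one_mul]
      refine (Pool.Agent.Helper17.KW.rpow_le_two_pow' (by linarith) hq).trans ?_
      have := h32 q
      linarith
    have h4 : 0 ≤ μ.real (dev μ (3 ^ q) 1 m η) := measureReal_nonneg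
    rw [← mul_assoc]
    nlinarith
  obtain ⟨s, hs, hent⟩ := exists_small_entropy3 h m hm hφ
    (hdev m hm _ (by have := norm_pos_iff.mpr hφ; positivity))
  obtain ⟨U, hUr, hUc, hUm⟩ := exists_thin (profile_pr h) s hs hent
  obtain ⟨S, η, hη, hS1, hSt⟩ := typical h (20 * s) U hUm
  set r := 20 * s with hr
  obtain ⟨q₁, n₁, hn₁, hwin⟩ := window_gen3 γ hγ2 r U hUc
  -- the typical points
  set G : ℕ → Set ℝ := fun q => {x | ∀ m ∈ S, x ∉ dev μ (3 ^ q) 1 m η} with hG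
  have hGc : ∀ q, (G q)ᶜ = ⋃ m ∈ S, dev μ (3 ^ q) 1 m η := by
    intro q; ext x; simp [hG]
  have hGm : ∀ q, MeasurableSet (G q) := by
    intro q
    rw [← MeasurableSet.compl_iff, hGc]
    exact Finset.measurableSet_biUnion _ fun m _ => measurableSet_dev μ _ _ _ _
  have hGp : ∀ q x, Int.fract x ∈ G q ↔ x ∈ G q := by
    intro q x
    show (∀ m ∈ S, _) ↔ (∀ m ∈ S, _)
    refine forall₂_congr fun m _ => not_congr (fract_mem_dev μ _ _ _ _ _)
  -- the tail
  set F : ℕ → ℝ := fun q => ∑ m ∈ S, (3 ^ q / (q : ℝ) ^ γ) *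
    μ.real (dev μ (3 ^ q) 1 m η) with hF
  have hFs : Summable F := summable_sum fun m hm => hW m (hS1 m hm) η hη
  have hF0 : ∀ q, 0 ≤ F q := fun q => sum_nonneg fun m _ => by positivity
  obtain ⟨N, hN⟩ := exists_tail hFs hF0 (1 / 512) (by norm_num)
  set q₀ : ℕ := N + q₁ + 4 * n₁ + 2 with hq₀
  have h3q : ∀ q : ℕ, 1 ≤ 3 ^ q := fun q => Nat.one_le_pow _ _ (by norm_num)
  have hc := stage3W3 h q₀ n₁ (wing γ) hn₁ (wing_mono (by linarith)) (fun q hq => by
      have := self_le_wing hγ1 (q := q) (by omega)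
      omega) (fun q hq => wing_le_three_pow hγ1 (by linarith) (by omega)) G hGm hGp ?_ ?_
  · exact false_of_arcs h0 hc
  · intro q hq n' d τ x h1 h2 hd hτ hx hx'
    have e1 : (n' : ℝ) ≤ (q : ℝ) ^ γ :=
      (by exact_mod_cast h2 : (n' : ℝ) ≤ wing γ q).trans (wing_le γ q)
    have t1 := hSt (3 ^ q) 1 (h3q q) le_rfl x hx
    have t2 := hSt (3 ^ q) 1 (h3q q) le_rfl _ hx'
    rw [mul_one] at t1 t2
    exact hwin q (by omega) n' d τ x h1 e1 hd hτ t1 t2
  · intro Q
    have key : ∀ q ∈ Ico q₀ Q, (3 ^ q / wing γ q : ℝ) * μ.real (G q)ᶜ ≤ 2 * F q := by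
      intro q hq
      have hq1 : 1 ≤ q := by
        have := (mem_Ico.1 hq).1
        omega
      have h1 : μ.real (G q)ᶜ ≤ ∑ m ∈ S, μ.real (dev μ (3 ^ q) 1 m η) := by
        rw [hGc]
        exact measureReal_biUnion_finset_le _ _
      have h2 : (3 ^ q / wing γ q : ℝ) ≤ 2 * (3 ^ q / (q : ℝ) ^ γ) := by
        have h3 : (0 : ℝ) < (q : ℝ) ^ γ :=
          Real.rpow_pos_of_pos (by exact_mod_cast hq1) _
        have h4 : (q : ℝ) ^ γ ≤ 2 * wing γ q := le_wing (by linarith) hq1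
        have h5 : (0 : ℝ) < wing γ q := by
          have := self_le_wing hγ1 hq1
          exact_mod_cast (by omega : 0 < wing γ q)
        rw [mul_div_assoc', div_le_div_iff₀ h5 h3]
        have h6 : (0 : ℝ) ≤ 3 ^ q := by positivity
        nlinarith
      have h7 : 0 ≤ (3 ^ q / wing γ q : ℝ) := by positivity
      have h8 : 0 ≤ μ.real (G q)ᶜ := measureReal_nonneg
      have h9 : 0 ≤ ∑ m ∈ S, μ.real (dev μ (3 ^ q) 1 m η) :=
        sum_nonneg fun m _ => measureReal_nonneg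
      calc (3 ^ q / wing γ q : ℝ) * μ.real (G q)ᶜ
          ≤ (2 * (3 ^ q / (q : ℝ) ^ γ)) * ∑ m ∈ S, μ.real (dev μ (3 ^ q) 1 m η) :=
            mul_le_mul h2 h1 h8 (h7.trans h2)
        _ = 2 * F q := by
            rw [hF]
            simp only
            rw [← mul_sum]
            ring
    calc ∑ q ∈ Ico q₀ Q, (3 ^ q / wing γ q : ℝ) * μ.real (G q)ᶜ ≤ ∑ q ∈ Ico q₀ Q, 2 * F q :=
          sum_le_sum key
      _ = 2 * ∑ q ∈ Ico q₀ Q, F q := by rw [mul_sum]
      _ ≤ 2 * (1 / 512) := by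
          have := hN q₀ (by omega) Q
          linarith
      _ = 1 / 256 := by norm_num

end Pool.Agent.Helper88.MR
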